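import Mathlib

set_option autoImplicit false

open Polynomial

/-! Definitions for MP_9de7c4_an. -/

namespace Pool.Agent.Lib.MP_9de7c4_an

noncomputable section

/-- The darga of a polynomial `a_r x^r + ... + a_s x^s` with `a_r ≠ 0 ≠ a_s`: the number `r + s`
(least exponent plus largest exponent). -/
def darga (p : ℂ[X]) : ℕ := p.natTrailingDegree + p.natDegree

/-- `p` of darga `n` is self-inversive: `p_j = conj (p_{n-j})` for all coefficients. -/
def SelfInversive (p : ℂ[X]) : Prop :=
  ∀ j ≤ darga p, p.coeff j = (starRingEnd ℂ) (p.coeff (darga p - j))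

/-- `p` is trim: its darga exceeds its degree. -/
def Trim (p : ℂ[X]) : Prop := p.natDegree < darga p

/-- All complex roots lie on the unit circle. -/
def CircleRooted (p : ℂ[X]) : Prop := ∀ z : ℂ, p.eval z = 0 → ‖z‖ = 1

/-- `p_α(x) = α (x^n + 1) + p(x)` where `n` is the darga of `p`. -/
def pAlpha (p : ℂ[X]) (α : ℝ) : ℂ[X] := C (α : ℂ) * (X ^ darga p + 1) + p

/-- `S(p)`: the set of `α > 0` such that `p_α` is circle rooted. -/
def S (p : ℂ[X]) : Set ℝ := {α | 0 < α ∧ CircleRooted (pAlpha p α)}

/-- `c(p)`: the number of connected components of `S(p)` (as a subspace of the real line). -/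
def c (p : ℂ[X]) : ℕ∞ := ENat.card (ConnectedComponents (S p))

end

end Pool.Agent.Lib.MP_9de7c4_an
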