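import Mathlib
import Pool.Agent.Lib.MP_9de7c4_an.Defs

set_option autoImplicit false

open Polynomial

namespace Pool.Agent.Lib.MP_9de7c4_an

/-!
# Components of the circle-rooted parameter set

For odd `m = 2 M + 1` and small `ε > 0` put
`p(x) = ∑_{i < m} (ε - (-1)^i) x^(2 i + 1)`, of darga `2 m`, and `y = (x + 1/x) / 2`. Then
`p_α(x) = x^m ((2 α y - 1) T_m(y) / y + ε U_{m-1}(y))` with the Chebyshev polynomials `T`, `U`.
For `ε = 0` the root `y = 1/(2 α)` travels through the other roots as `α` varies; for small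
`ε > 0` every collision opens a gap in `S(p)` (shown with the Laguerre inequality), while between
the collisions the roots stay simple and on the circle.
-/

noncomputable section

theorem aeval_ofReal (f : ℝ[X]) (r : ℝ) : aeval ((r : ℝ) : ℂ) f = ((f.eval r : ℝ) : ℂ) := by
  have := Polynomial.aeval_algebraMap_apply ℂ r f
  simpa using this

/-- Laguerre inequality -/
theorem laguerre (n : ℕ) : ∀ f : ℝ[X], f.natDegree = n →
    (∀ z : ℂ, aeval z f = 0 → z.im = 0) →
    ∀ y : ℝ, f.eval y * (derivative (derivative f)).eval y ≤ ((derivative f).eval y) ^ 2 := by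
  induction n with
  | zero =>
    intro f hf _ y
    obtain ⟨c, rfl⟩ := natDegree_eq_zero.mp hf
    simp
  | succ n ih =>
    intro f hf hroots y
    have hf0 : f ≠ 0 := by
      rintro rfl
      simp at hf
    have hdeg : (f.map (algebraMap ℝ ℂ)).degree ≠ 0 := by
      rw [degree_map, degree_eq_natDegree hf0, hf]
      exact_mod_cast Nat.succ_ne_zero n
    obtain ⟨z, hz⟩ := IsAlgClosed.exists_root _ hdeg
    have hz' : aeval z f = 0 := by
      rwa [IsRoot.def, eval_map_algebraMap] at hz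
    have him := hroots z hz'
    have hzr : z = ((z.re : ℝ) : ℂ) := by
      apply Complex.ext <;> simp [him]
    have hroot : f.IsRoot z.re := by
      rw [hzr, aeval_ofReal] at hz'
      exact_mod_cast hz'
    obtain ⟨h, hh⟩ := dvd_iff_isRoot.mpr hroot
    have hh0 : h ≠ 0 := by
      rintro rfl
      simp at hh
      exact hf0 hh
    have hdegh : h.natDegree = n := by
      have := congrArg natDegree hh
      rw [natDegree_mul (X_sub_C_ne_zero _) hh0, natDegree_X_sub_C, hf] at this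
      omega
    have ihh := ih h hdegh (fun w hw => hroots w (by rw [hh]; simp [hw])) y
    rw [hh]
    simp only [derivative_mul, derivative_sub, derivative_X, derivative_C, sub_zero, one_mul,
      derivative_add, eval_add, eval_mul, eval_sub, eval_X, eval_C]
    nlinarith [sq_nonneg (h.eval y), mul_nonneg (sq_nonneg (y - z.re)) (sub_nonneg.mpr ihh)]

/-- If `f` has as many distinct real roots as its degree, all complex roots are among them -/
theorem complex_root_mem (f : ℝ[X]) (hf : f ≠ 0) (R : Finset ℝ) (hR : ∀ r ∈ R, f.eval r = 0)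
    (hcard : f.natDegree ≤ R.card) (z : ℂ) (hz : aeval z f = 0) : ∃ r ∈ R, z = ((r : ℝ) : ℂ) := by
  by_contra hcon
  push Not at hcon
  have hf' : f.map (algebraMap ℝ ℂ) ≠ 0 := by
    rwa [Polynomial.map_ne_zero_iff (algebraMap ℝ ℂ).injective]
  let R' : Finset ℂ := insert z (R.image (fun r : ℝ => (r : ℂ)))
  have hz2 : z ∉ R.image (fun r : ℝ => (r : ℂ)) := by
    intro hmem
    obtain ⟨r, hr, hrz⟩ := Finset.mem_image.mp hmem
    exact hcon r hr hrz.symm
  have hcard' : R'.card = R.card + 1 := by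
    rw [Finset.card_insert_of_notMem hz2, Finset.card_image_of_injective _ Complex.ofReal_injective]
  have hsub : R' ⊆ (f.map (algebraMap ℝ ℂ)).roots.toFinset := by
    intro w hw
    rw [Multiset.mem_toFinset, mem_roots hf', IsRoot.def, eval_map_algebraMap]
    rcases Finset.mem_insert.mp hw with rfl | hw
    · exact hz
    · obtain ⟨r, hr, rfl⟩ := Finset.mem_image.mp hw
      rw [aeval_ofReal, hR r hr]; simp
  have h1 := Finset.card_le_card hsub
  have h2 : (f.map (algebraMap ℝ ℂ)).roots.toFinset.card ≤ f.natDegree := by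
    refine (Multiset.toFinset_card_le _).trans ((card_roots' _).trans ?_)
    rw [natDegree_map]
  omega

/-- sign change gives roots -/
theorem exists_root_Ioo (f : ℝ[X]) (a b : ℝ) (hab : a ≤ b) (h : f.eval a * f.eval b < 0) :
    ∃ r ∈ Set.Ioo a b, f.eval r = 0 := by
  have hc : ContinuousOn (fun x => f.eval x) (Set.Icc a b) := f.continuous.continuousOn
  rcases lt_trichotomy (f.eval a) 0 with ha | ha | ha
  · have hb : 0 < f.eval b := by nlinarith
    obtain ⟨r, hr, hr0⟩ := intermediate_value_Ioo hab hc ⟨ha, hb⟩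
    exact ⟨r, hr, hr0⟩
  · rw [ha] at h; simp at h
  · have hb : f.eval b < 0 := by nlinarith
    obtain ⟨r, hr, hr0⟩ := intermediate_value_Ioo' hab hc ⟨hb, ha⟩
    exact ⟨r, hr, hr0⟩

open Filter Topology in
theorem perturb (f g : ℝ[X]) (R : Finset ℝ) (hf : f ≠ 0) (hR : ∀ r ∈ R, f.eval r = 0)
    (hcard : R.card = f.natDegree) (hI : ∀ r ∈ R, -1 < r ∧ r < 1)
    (hg : g.degree < f.degree) :
    ∀ᶠ ε in 𝓝 (0 : ℝ), ∀ z : ℂ, aeval z (f + C ε * g) = 0 →
      ∃ y : ℝ, z = (y : ℂ) ∧ -1 < y ∧ y < 1 := by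
  classical
  -- product formula
  have hprod : f = C f.leadingCoeff * ∏ r ∈ R, (X - C r) := by
    have hroots : f.roots = R.val := by
      symm
      apply Multiset.eq_of_le_of_card_le
      · rw [Finset.val_le_iff_val_subset]
        intro r hr
        rw [mem_roots hf]
        exact hR r (by simpa using hr)
      · refine (card_roots' f).trans ?_
        rw [← hcard]; simp
    have := C_leadingCoeff_mul_prod_multiset_X_sub_C (p := f) (by rw [hroots, ← hcard]; simp)
    rw [hroots] at this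
    exact this.symm
  -- choose delta
  obtain ⟨δ, hδ0, hδ1, hδ2⟩ : ∃ δ : ℝ, 0 < δ ∧ (∀ r ∈ R, -1 < r - δ ∧ r + δ < 1) ∧
      (∀ r ∈ R, ∀ s ∈ R, r ≠ s → 2 * δ < |r - s|) := by
    have h1 : ∀ᶠ δ in 𝓝 (0 : ℝ), ∀ r ∈ R, -1 < r - δ ∧ r + δ < 1 := by
      rw [Filter.eventually_all_finset]
      intro r hr
      have h := hI r hr
      have c1 : ∀ᶠ δ in 𝓝 (0 : ℝ), -1 < r - δ := by
        have : ContinuousAt (fun δ : ℝ => r - δ) 0 := by fun_prop
        exact this.eventually (lt_mem_nhds (by simpa using h.1))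
      have c2 : ∀ᶠ δ in 𝓝 (0 : ℝ), r + δ < 1 := by
        have : ContinuousAt (fun δ : ℝ => r + δ) 0 := by fun_prop
        exact this.eventually (gt_mem_nhds (by simpa using h.2))
      exact c1.and c2
    have h2 : ∀ᶠ δ in 𝓝 (0 : ℝ), ∀ r ∈ R, ∀ s ∈ R, r ≠ s → 2 * δ < |r - s| := by
      rw [Filter.eventually_all_finset]
      intro r hr
      rw [Filter.eventually_all_finset]
      intro s hs
      by_cases hrs : r = s
      · simp [hrs]
      · have : ContinuousAt (fun δ : ℝ => 2 * δ) 0 := by fun_prop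
        have hpos : 2 * (0 : ℝ) < |r - s| := by
          rw [mul_zero]
          exact abs_pos.mpr (sub_ne_zero.mpr hrs)
        have h3 := this.eventually (gt_mem_nhds hpos)
        filter_upwards [h3] with δ hδ _ using hδ
    have h3 : ∀ᶠ δ in 𝓝[>] (0 : ℝ), (0 < δ) ∧ (∀ r ∈ R, -1 < r - δ ∧ r + δ < 1) ∧
      (∀ r ∈ R, ∀ s ∈ R, r ≠ s → 2 * δ < |r - s|) := by
      filter_upwards [self_mem_nhdsWithin, mem_nhdsWithin_of_mem_nhds h1,
        mem_nhdsWithin_of_mem_nhds h2] with δ a b c using ⟨a, b, c⟩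
    exact h3.exists
  -- signs
  have hsign : ∀ r ∈ R, f.eval (r - δ) * f.eval (r + δ) < 0 := by
    intro r hr
    have e1 : f.eval (r - δ) * f.eval (r + δ) =
        f.leadingCoeff ^ 2 * ∏ s ∈ R, ((r - s) ^ 2 - δ ^ 2) := by
      conv_lhs => rw [hprod]
      simp only [eval_mul, eval_C, eval_prod, eval_sub, eval_X]
      rw [show ∀ a b c d : ℝ, (a * b) * (c * d) = (a * c) * (b * d) by intros; ring,
        ← Finset.prod_mul_distrib]
      congr 1
      · ring
      · apply Finset.prod_congr rfl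
        intro s _
        ring
    rw [e1, ← Finset.mul_prod_erase R _ hr]
    have hl : 0 < f.leadingCoeff ^ 2 := by
      have := leadingCoeff_ne_zero.mpr hf
      positivity
    have hp : 0 < ∏ s ∈ R.erase r, ((r - s) ^ 2 - δ ^ 2) := by
      apply Finset.prod_pos
      intro s hs
      have hs' := Finset.mem_erase.mp hs
      have h2 := hδ2 r hr s hs'.2 (Ne.symm hs'.1)
      have h3 : δ < |r - s| := by linarith
      have := sq_abs (r - s)
      nlinarith
    have : f.leadingCoeff ^ 2 * (((r - r) ^ 2 - δ ^ 2) * ∏ s ∈ R.erase r, ((r - s) ^ 2 - δ ^ 2)) =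
      - (f.leadingCoeff ^ 2 * δ ^ 2 * ∏ s ∈ R.erase r, ((r - s) ^ 2 - δ ^ 2)) := by ring
    rw [this]
    have : 0 < f.leadingCoeff ^ 2 * δ ^ 2 * ∏ s ∈ R.erase r, ((r - s) ^ 2 - δ ^ 2) := by positivity
    linarith
  have hev : ∀ᶠ ε in 𝓝 (0 : ℝ), ∀ r ∈ R,
      (f + C ε * g).eval (r - δ) * (f + C ε * g).eval (r + δ) < 0 := by
    rw [Filter.eventually_all_finset]
    intro r hr
    have : ContinuousAt (fun ε : ℝ => (f + C ε * g).eval (r - δ) * (f + C ε * g).eval (r + δ)) 0 := by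
      simp only [eval_add, eval_mul, eval_C]
      fun_prop
    exact this.eventually (gt_mem_nhds (by simpa using hsign r hr))
  filter_upwards [hev] with ε hε z hz
  have hdeg : (f + C ε * g).degree = f.degree := by
    apply degree_add_eq_left_of_degree_lt
    refine lt_of_le_of_lt ?_ hg
    by_cases h0 : ε = 0
    · simp [h0]
    · rw [degree_C_mul h0]
  have hndeg : (f + C ε * g).natDegree = f.natDegree := natDegree_eq_of_degree_eq hdeg
  have hne : f + C ε * g ≠ 0 := by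
    intro h
    rw [h, degree_zero] at hdeg
    exact hf (degree_eq_bot.mp hdeg.symm)
  have hch : ∀ r ∈ R, ∃ s ∈ Set.Ioo (r - δ) (r + δ), (f + C ε * g).eval s = 0 := fun r hr =>
    exists_root_Ioo _ _ _ (by linarith) (hε r hr)
  choose! ρ hρ1 hρ2 using hch
  have hinj : Set.InjOn ρ R := by
    intro r hr s hs hrs
    by_contra hne
    have h1 := hρ1 r hr
    have h2 := hρ1 s hs
    rw [← hrs] at h2
    have h3 := hδ2 r hr s hs hne
    have h4 : |r - s| < 2 * δ := by
      rw [abs_lt]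
      constructor <;> linarith [h1.1, h1.2, h2.1, h2.2]
    linarith
  obtain ⟨y, hy, hzy⟩ := complex_root_mem (f + C ε * g) hne (R.image ρ)
    (by
      intro s hs
      obtain ⟨r, hr, rfl⟩ := Finset.mem_image.mp hs
      exact hρ2 r hr)
    (by rw [Finset.card_image_of_injOn hinj, hcard, hndeg]) z hz
  obtain ⟨r, hr, rfl⟩ := Finset.mem_image.mp hy
  refine ⟨ρ r, hzy, ?_, ?_⟩
  · linarith [(hδ1 r hr).1, (hρ1 r hr).1]
  · linarith [(hδ1 r hr).2, (hρ1 r hr).2]

theorem T_eval_half (x : ℂ) (hx : x ≠ 0) : ∀ n : ℕ,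
    2 * (Chebyshev.T ℂ n).eval ((x + x⁻¹) / 2) * x ^ n = x ^ (2 * n) + 1 := by
  intro n
  induction n using Nat.twoStepInduction with
  | zero => simp; norm_num
  | one => simp; field_simp
  | more n ih1 ih2 =>
    have h : (((n + 2 : ℕ) : ℤ)) = (n : ℤ) + 2 := by push_cast; ring
    rw [h, Chebyshev.T_add_two]
    have h1 : (((n + 1 : ℕ) : ℤ)) = (n : ℤ) + 1 := by push_cast; ring
    rw [h1] at ih2
    simp only [eval_sub, eval_mul, eval_ofNat, eval_X]
    have e : 2 * (2 * ((x + x⁻¹) / 2) * (Chebyshev.T ℂ (↑n + 1)).eval ((x + x⁻¹) / 2) -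
        (Chebyshev.T ℂ ↑n).eval ((x + x⁻¹) / 2)) * x ^ (n + 2) =
        (x ^ 2 + 1) * (2 * (Chebyshev.T ℂ (↑n + 1)).eval ((x + x⁻¹) / 2) * x ^ (n + 1)) -
        x ^ 2 * (2 * (Chebyshev.T ℂ ↑n).eval ((x + x⁻¹) / 2) * x ^ n) := by
      field_simp
      ring
    rw [e, ih1, ih2]
    ring

theorem U_eval_half (x : ℂ) (hx : x ≠ 0) : ∀ n : ℕ,
    (Chebyshev.U ℂ n).eval ((x + x⁻¹) / 2) * x ^ n = ∑ i ∈ Finset.range (n + 1), x ^ (2 * i) := by
  intro n
  induction n using Nat.twoStepInduction with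
  | zero => simp
  | one => simp [Finset.sum_range_succ]; field_simp; ring
  | more n ih1 ih2 =>
    have h : (((n + 2 : ℕ) : ℤ)) = (n : ℤ) + 2 := by push_cast; ring
    rw [h, Chebyshev.U_add_two]
    have h1 : (((n + 1 : ℕ) : ℤ)) = (n : ℤ) + 1 := by push_cast; ring
    rw [h1] at ih2
    simp only [eval_sub, eval_mul, eval_ofNat, eval_X]
    have e : (2 * ((x + x⁻¹) / 2) * (Chebyshev.U ℂ (↑n + 1)).eval ((x + x⁻¹) / 2) -
        (Chebyshev.U ℂ ↑n).eval ((x + x⁻¹) / 2)) * x ^ (n + 2) =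
        (x ^ 2 + 1) * ((Chebyshev.U ℂ (↑n + 1)).eval ((x + x⁻¹) / 2) * x ^ (n + 1)) -
        x ^ 2 * ((Chebyshev.U ℂ ↑n).eval ((x + x⁻¹) / 2) * x ^ n) := by
      field_simp
      ring
    rw [e, ih1, ih2, Finset.sum_range_succ (fun i => x ^ (2 * i)) (n + 2)]
    rw [Finset.sum_range_succ (fun i => x ^ (2 * i)) (n + 1)]
    ring

theorem alt_sum (x : ℂ) (m : ℕ) (hm : Odd m) :
    (∑ i ∈ Finset.range m, (-1 : ℂ) ^ i * x ^ (2 * i)) * (x ^ 2 + 1) = x ^ (2 * m) + 1 := by
  have h := geom_sum_mul (-x ^ 2) m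
  have e : (∑ i ∈ Finset.range m, (-1 : ℂ) ^ i * x ^ (2 * i)) = ∑ i ∈ Finset.range m, (-x ^ 2) ^ i := by
    apply Finset.sum_congr rfl
    intro i _
    rw [neg_pow (x ^ 2) i, ← pow_mul]
  rw [e]
  have e2 : (-x ^ 2) ^ m = - x ^ (2 * m) := by
    rw [hm.neg_pow, ← pow_mul]
  rw [e2] at h
  linear_combination -h

/-- the family -/
def q (M : ℕ) (ε : ℝ) : ℂ[X] :=
  ∑ i ∈ Finset.range (2 * M + 1), C ((ε - (-1) ^ i : ℝ) : ℂ) * X ^ (2 * i + 1)

theorem q_coeff (M : ℕ) (ε : ℝ) (j : ℕ) : (q M ε).coeff j =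
    if Odd j ∧ j ≤ 4 * M + 1 then ((ε - (-1) ^ (j / 2) : ℝ) : ℂ) else 0 := by
  unfold q
  rw [finsetSum_coeff]
  simp only [coeff_C_mul, coeff_X_pow]
  split_ifs with h
  · obtain ⟨⟨k, hk⟩, hj⟩ := h
    rw [Finset.sum_eq_single k]
    · rw [if_pos hk, mul_one]
      congr 4
      omega
    · intro b _ hb
      rw [if_neg (by omega), mul_zero]
    · intro hk'
      exfalso
      apply hk'
      rw [Finset.mem_range]
      omega
  · apply Finset.sum_eq_zero
    intro i hi
    rw [Finset.mem_range] at hi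
    rw [if_neg, mul_zero]
    intro hji
    apply h
    refine ⟨⟨i, hji⟩, by omega⟩

theorem coeff_ne (ε : ℝ) (h0 : 0 < ε) (h1 : ε < 1) (i : ℕ) : (ε - (-1) ^ i : ℝ) ≠ 0 := by
  rcases neg_one_pow_eq_or ℝ i with h | h <;> rw [h] <;> intro h' <;> linarith

theorem q_natDegree (M : ℕ) (ε : ℝ) (h0 : 0 < ε) (h1 : ε < 1) : (q M ε).natDegree = 4 * M + 1 := by
  apply natDegree_eq_of_le_of_coeff_ne_zero
  · rw [natDegree_le_iff_coeff_eq_zero]
    intro N hN
    rw [q_coeff, if_neg]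
    omega
  · rw [q_coeff, if_pos ⟨⟨2 * M, by ring⟩, le_refl _⟩]
    exact_mod_cast coeff_ne ε h0 h1 _

theorem q_ne_zero (M : ℕ) (ε : ℝ) (h0 : 0 < ε) (h1 : ε < 1) : q M ε ≠ 0 := by
  intro h
  have := q_natDegree M ε h0 h1
  rw [h] at this
  simp at this

theorem q_natTrailingDegree (M : ℕ) (ε : ℝ) (h0 : 0 < ε) (h1 : ε < 1) :
    (q M ε).natTrailingDegree = 1 := by
  apply le_antisymm
  · apply natTrailingDegree_le_of_ne_zero
    rw [q_coeff, if_pos ⟨odd_one, by omega⟩]
    exact_mod_cast coeff_ne ε h0 h1 _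
  · apply le_natTrailingDegree (q_ne_zero M ε h0 h1)
    intro m hm
    rw [q_coeff, if_neg]
    rintro ⟨h, _⟩
    have : m = 0 := by omega
    subst this
    simp at h

theorem q_darga (M : ℕ) (ε : ℝ) (h0 : 0 < ε) (h1 : ε < 1) : darga (q M ε) = 4 * M + 2 := by
  rw [darga, q_natDegree M ε h0 h1, q_natTrailingDegree M ε h0 h1]
  omega

theorem q_selfInversive (M : ℕ) (ε : ℝ) (h0 : 0 < ε) (h1 : ε < 1) : SelfInversive (q M ε) := by
  intro j hj
  rw [q_darga M ε h0 h1] at hj ⊢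
  rw [q_coeff, q_coeff]
  by_cases h : Odd j ∧ j ≤ 4 * M + 1
  · obtain ⟨⟨k, hk⟩, hj'⟩ := h
    rw [if_pos ⟨⟨k, hk⟩, hj'⟩, if_pos ⟨⟨2 * M - k, by omega⟩, by omega⟩, Complex.conj_ofReal]
    have e1 : j / 2 = k := by omega
    have e2 : (4 * M + 2 - j) / 2 = 2 * M - k := by omega
    rw [e1, e2]
    have : ((-1 : ℝ)) ^ (2 * M - k) = (-1) ^ k := by
      have h2 : (-1 : ℝ) ^ (2 * M - k) * (-1) ^ k = 1 := by
        rw [← pow_add, Nat.sub_add_cancel (by omega)]
        simp
      rcases neg_one_pow_eq_or ℝ k with h3 | h3 <;> rw [h3] at h2 ⊢ <;> linarith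
    rw [this]
  · rw [if_neg h, if_neg]
    · simp
    · rintro ⟨⟨k, hk⟩, hj'⟩
      apply h
      refine ⟨⟨2 * M - k, by omega⟩, ?_⟩
      omega

theorem q_trim (M : ℕ) (ε : ℝ) (h0 : 0 < ε) (h1 : ε < 1) : Trim (q M ε) := by
  rw [Trim, q_darga M ε h0 h1, q_natDegree M ε h0 h1]
  omega

/-- the real polynomial in y -/
def G (D : ℝ[X]) (M : ℕ) (α ε : ℝ) : ℝ[X] :=
  (C (2 * α) * X - 1) * D + C ε * Chebyshev.U ℝ ((2 * M : ℕ) : ℤ)

theorem exists_D (M : ℕ) : ∃ D : ℝ[X], Chebyshev.T ℝ ((2 * M + 1 : ℕ) : ℤ) = X * D := by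
  have h : (Chebyshev.T ℝ ((2 * M + 1 : ℕ) : ℤ)).IsRoot 0 := by
    rw [IsRoot.def]
    apply Chebyshev.T_eval_zero_of_odd
    exact ⟨M, by push_cast; ring⟩
  obtain ⟨D, hD⟩ := dvd_iff_isRoot.mpr h
  exact ⟨D, by rw [hD]; simp⟩

theorem key_identity (D : ℝ[X]) (M : ℕ) (hD : Chebyshev.T ℝ ((2 * M + 1 : ℕ) : ℤ) = X * D) (α ε : ℝ)
    (h0 : 0 < ε) (h1 : ε < 1) (x : ℂ) (hx : x ≠ 0) (hx2 : x ^ 2 + 1 ≠ 0) :
    (pAlpha (q M ε) α).eval x = x ^ (2 * M + 1) * aeval ((x + x⁻¹) / 2) (G D M α ε) := by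
  have hT := T_eval_half x hx (2 * M + 1)
  have hU := U_eval_half x hx (2 * M)
  have hA := alt_sum x (2 * M + 1) ⟨M, rfl⟩
  have hTD : (Chebyshev.T ℂ ((2 * M + 1 : ℕ) : ℤ)).eval ((x + x⁻¹) / 2) =
      ((x + x⁻¹) / 2) * aeval ((x + x⁻¹) / 2) D := by
    rw [← Chebyshev.aeval_T (R := ℝ), hD]
    simp
  have hDA : aeval ((x + x⁻¹) / 2) D * x ^ (2 * M) =
      ∑ i ∈ Finset.range (2 * M + 1), (-1 : ℂ) ^ i * x ^ (2 * i) := by
    apply mul_right_cancel₀ hx2
    rw [hA, ← hT, hTD]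
    field_simp
    ring
  have hq : (q M ε).eval x = ε * (x * ∑ i ∈ Finset.range (2 * M + 1), x ^ (2 * i)) -
      x * ∑ i ∈ Finset.range (2 * M + 1), (-1 : ℂ) ^ i * x ^ (2 * i) := by
    unfold q
    rw [eval_finsetSum, Finset.mul_sum, Finset.mul_sum, Finset.mul_sum, ← Finset.sum_sub_distrib]
    apply Finset.sum_congr rfl
    intro i _
    simp only [eval_mul, eval_C, eval_pow, eval_X]
    push_cast
    ring
  unfold pAlpha G
  rw [q_darga M ε h0 h1]
  simp only [eval_add, eval_mul, eval_C, eval_pow, eval_X, eval_one, hq, map_add, map_mul, map_sub,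
    aeval_X, map_one, aeval_C, Chebyshev.aeval_U]
  rw [← hU, ← hDA]
  have e : x ^ (4 * M + 2) + 1 = 2 * (((x + x⁻¹) / 2) * aeval ((x + x⁻¹) / 2) D) * x ^ (2 * M + 1) := by
    rw [← hTD, hT]
    ring
  rw [e]
  simp only [Complex.coe_algebraMap]
  push_cast
  ring

/-- x on the circle iff y real in (-1,1) -/
theorem norm_one_of_real (x : ℂ) (hx : x ≠ 0) (y : ℝ) (hxy : (x + x⁻¹) / 2 = (y : ℂ))
    (h1 : -1 < y) (h2 : y < 1) : ‖x‖ = 1 := by
  have h : x ^ 2 - 2 * y * x + 1 = 0 := by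
    rw [← hxy]
    field_simp
    ring
  have hre := congrArg Complex.re h
  have him := congrArg Complex.im h
  simp [pow_two] at hre him
  -- re : a^2 - b^2 - 2 y a + 1 = 0, im : 2 a b - 2 y b = 0
  have hb : x.im ≠ 0 := by
    intro hb
    rw [hb] at hre
    nlinarith [sq_nonneg (x.re - y)]
  have ha : x.re = y := by
    have : x.im * (x.re - y) = 0 := by linarith
    rcases mul_eq_zero.mp this with h | h
    · exact absurd h hb
    · linarith
  have : Complex.normSq x = 1 := by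
    rw [Complex.normSq_apply]
    rw [ha] at hre ⊢
    linarith
  rw [Complex.norm_def, this, Real.sqrt_one]

theorem real_of_norm_one (x : ℂ) (hx : ‖x‖ = 1) : ((x + x⁻¹) / 2).im = 0 := by
  have : x⁻¹ = (starRingEnd ℂ) x := Complex.inv_eq_conj hx
  rw [this, Complex.add_conj]
  simp

theorem circleRooted_of (D : ℝ[X]) (M : ℕ) (hD : Chebyshev.T ℝ ((2 * M + 1 : ℕ) : ℤ) = X * D)
    (α ε : ℝ) (h0 : 0 < ε) (h1 : ε < 1) (hα : 0 < α)
    (h : ∀ z : ℂ, aeval z (G D M α ε) = 0 → ∃ y : ℝ, z = (y : ℂ) ∧ -1 < y ∧ y < 1) :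
    CircleRooted (pAlpha (q M ε) α) := by
  intro x hx
  have hx0 : x ≠ 0 := by
    rintro rfl
    have : (pAlpha (q M ε) α).eval 0 = α := by
      unfold pAlpha
      simp only [eval_add, eval_mul, eval_C, eval_pow, eval_X, eval_one]
      rw [q_darga M ε h0 h1, ← coeff_zero_eq_eval_zero, q_coeff, if_neg (by simp)]
      simp
    rw [this] at hx
    have : α = 0 := by exact_mod_cast hx
    linarith
  by_cases hx2 : x ^ 2 + 1 = 0
  · have h3 : ‖x‖ ^ 2 = 1 := by
      rw [← norm_pow, show x ^ 2 = -1 by linear_combination hx2]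
      simp
    have h4 : 0 ≤ ‖x‖ := norm_nonneg x
    nlinarith
  · rw [key_identity D M hD α ε h0 h1 x hx0 hx2] at hx
    rcases mul_eq_zero.mp hx with h3 | h3
    · exact absurd h3 (pow_ne_zero _ hx0)
    · obtain ⟨y, hy, hy1, hy2⟩ := h _ h3
      exact norm_one_of_real x hx0 y hy hy1 hy2

theorem real_of_circleRooted (D : ℝ[X]) (M : ℕ)
    (hD : Chebyshev.T ℝ ((2 * M + 1 : ℕ) : ℤ) = X * D)
    (α ε : ℝ) (h0 : 0 < ε) (h1 : ε < 1)
    (h : CircleRooted (pAlpha (q M ε) α)) (z : ℂ) (hz : aeval z (G D M α ε) = 0) : z.im = 0 := by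
  obtain ⟨s, hs⟩ := IsSquare.exists_sq (z ^ 2 - 1) (by
    obtain ⟨w, hw⟩ := IsAlgClosed.exists_pow_nat_eq (z ^ 2 - 1) (n := 2) (by norm_num)
    exact ⟨w, by rw [← hw]; ring⟩)
  set x := z + s with hxdef
  have hx : x ^ 2 - 2 * z * x + 1 = 0 := by
    rw [hxdef]
    linear_combination -hs
  have hx0 : x ≠ 0 := by
    intro h
    rw [h] at hx
    simp at hx
  have hy : (x + x⁻¹) / 2 = z := by
    field_simp
    linear_combination hx
  by_cases hx2 : x ^ 2 + 1 = 0
  · have : z = 0 := by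
      have h3 : 2 * z * x = 0 := by linear_combination hx2 - hx
      rcases mul_eq_zero.mp h3 with h4 | h4
      · rcases mul_eq_zero.mp h4 with h5 | h5
        · norm_num at h5
        · exact h5
      · exact absurd h4 hx0
    rw [this]; simp
  · have hk := key_identity D M hD α ε h0 h1 x hx0 hx2
    rw [hy, hz, mul_zero] at hk
    have := real_of_norm_one x (h x hk)
    rwa [hy] at this

open Filter Topology in
/-- the beta side -/
theorem beta_side (D : ℝ[X]) (M : ℕ) (hD : Chebyshev.T ℝ ((2 * M + 1 : ℕ) : ℤ) = X * D)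
    (y : ℝ) (hy : 0 < y) (hroot : (Chebyshev.T ℝ ((2 * M + 1 : ℕ) : ℤ)).eval y = 0)
    (hU : (Chebyshev.U ℝ ((2 * M : ℕ) : ℤ)).eval y ≠ 0) :
    ∀ᶠ ε in 𝓝[>] (0 : ℝ), ¬ CircleRooted (pAlpha (q M ε) (1 / (2 * y))) := by
  set u := (Chebyshev.U ℝ ((2 * M : ℕ) : ℤ)).eval y with hu
  set u1 := (derivative (Chebyshev.U ℝ ((2 * M : ℕ) : ℤ))).eval y with hu1
  set u2 := (derivative (derivative (Chebyshev.U ℝ ((2 * M : ℕ) : ℤ)))).eval y with hu2
  have hDy : D.eval y = 0 := by
    rw [hD] at hroot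
    simp only [eval_mul, eval_X] at hroot
    rcases mul_eq_zero.mp hroot with h | h
    · exact absurd h hy.ne'
    · exact h
  have hD1 : y * (derivative D).eval y = (2 * M + 1) * u := by
    have h1 := congrArg (fun f => eval y (derivative f)) hD
    simp only [Chebyshev.T_derivative_eq_U, derivative_mul, derivative_X, one_mul, eval_add,
      eval_mul, eval_X, hDy, zero_add] at h1
    rw [← h1]
    have e : (((2 * M + 1 : ℕ) : ℤ) - 1) = ((2 * M : ℕ) : ℤ) := by push_cast; ring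
    rw [e]
    simp [hu]
  have hpos : 0 < 4 * (1 / (2 * y)) * ((2 * M + 1) * u / y) * u := by
    have : 0 < u ^ 2 := by positivity
    have e : 4 * (1 / (2 * y)) * ((2 * M + 1) * u / y) * u = 2 * (2 * M + 1) * u ^ 2 / y ^ 2 := by
      field_simp
      ring
    rw [e]
    positivity
  have hcont : ∀ᶠ ε in 𝓝 (0 : ℝ), 0 < 4 * (1 / (2 * y)) * ((2 * M + 1) * u / y) * u +
      ε * (u * u2 - u1 ^ 2) := by
    have : ContinuousAt (fun ε : ℝ => 4 * (1 / (2 * y)) * ((2 * M + 1) * u / y) * u +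
      ε * (u * u2 - u1 ^ 2)) 0 := by fun_prop
    exact this.eventually (lt_mem_nhds (by simpa using hpos))
  have hlt : ∀ᶠ ε in 𝓝 (0 : ℝ), ε < 1 := gt_mem_nhds one_pos
  filter_upwards [self_mem_nhdsWithin, mem_nhdsWithin_of_mem_nhds hcont,
    mem_nhdsWithin_of_mem_nhds hlt] with ε h0 hc h1 hcirc
  have h0' : 0 < ε := h0
  have hL := laguerre _ (G D M (1 / (2 * y)) ε) rfl
    (fun z hz => real_of_circleRooted D M hD _ ε h0' h1 hcirc z hz) y
  have hDp : (derivative D).eval y = (2 * M + 1) * u / y := by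
    rw [← hD1]; field_simp
  have g0 : (G D M (1 / (2 * y)) ε).eval y = ε * u := by
    unfold G
    simp only [eval_add, eval_mul, eval_sub, eval_C, eval_X, eval_one, hDy, mul_zero, zero_add]
    rfl
  have g1 : (derivative (G D M (1 / (2 * y)) ε)).eval y = ε * u1 := by
    unfold G
    simp only [derivative_add, derivative_mul, derivative_sub, derivative_C, derivative_X,
      derivative_one, eval_add, eval_mul, eval_sub, eval_C, eval_X, eval_one, eval_zero, hDy]
    field_simp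
    ring
  have g2 : (derivative (derivative (G D M (1 / (2 * y)) ε))).eval y =
      4 * (1 / (2 * y)) * ((2 * M + 1) * u / y) + ε * u2 := by
    unfold G
    simp only [derivative_add, derivative_mul, derivative_sub, derivative_C, derivative_X,
      derivative_one, derivative_zero, eval_add, eval_mul, eval_sub, eval_C, eval_X, eval_one,
      eval_zero, hDy, hDp]
    field_simp
    ring
  rw [g0, g1, g2] at hL
  have : ε * (4 * (1 / (2 * y)) * ((2 * M + 1) * u / y) * u + ε * (u * u2 - u1 ^ 2)) ≤ 0 := by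
    nlinarith
  have h5 := mul_pos h0' hc
  linarith

open Filter Topology in
/-- the alpha side -/
theorem alpha_side (D : ℝ[X]) (M : ℕ) (hD : Chebyshev.T ℝ ((2 * M + 1 : ℕ) : ℤ) = X * D)
    (y : ℝ) (hy : 0 < y) (hy1 : y < 1)
    (hnr : (Chebyshev.T ℝ ((2 * M + 1 : ℕ) : ℤ)).eval y ≠ 0) :
    ∀ᶠ ε in 𝓝[>] (0 : ℝ), CircleRooted (pAlpha (q M ε) (1 / (2 * y))) := by
  classical
  have hT0 : Chebyshev.T ℝ ((2 * M + 1 : ℕ) : ℤ) ≠ 0 := Chebyshev.T_ne_zero ℝ _
  have hD0 : D ≠ 0 := by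
    rintro rfl
    rw [mul_zero] at hD
    exact hT0 hD
  have hdegT : (Chebyshev.T ℝ ((2 * M + 1 : ℕ) : ℤ)).natDegree = 2 * M + 1 := by
    rw [Chebyshev.natDegree_T, Int.natAbs_natCast]
  have hdegD : D.natDegree = 2 * M := by
    rw [hD, natDegree_mul X_ne_zero hD0, natDegree_X] at hdegT
    omega
  have hroots := Chebyshev.roots_T_real (2 * M + 1)
  have hnodup : (Chebyshev.T ℝ ((2 * M + 1 : ℕ) : ℤ)).roots.Nodup := by
    rw [hroots]; exact Finset.nodup _
  have hcardT : Multiset.card (Chebyshev.T ℝ ((2 * M + 1 : ℕ) : ℤ)).roots = 2 * M + 1 := by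
    rw [hroots, Finset.card_val, Finset.card_image_of_injOn, Finset.card_range]
    exact (Finset.range (2 * M + 1)).nodup_map_iff_injOn.mp
      (Chebyshev.roots_T_real_nodup (2 * M + 1))
  have hrD : (Chebyshev.T ℝ ((2 * M + 1 : ℕ) : ℤ)).roots = {0} + D.roots := by
    rw [hD, roots_mul (by rw [← hD]; exact hT0), roots_X]
  have hcardD : Multiset.card D.roots = 2 * M := by
    rw [hrD] at hcardT
    simp at hcardT
    omega
  have hnodupD : D.roots.Nodup := by
    rw [hrD] at hnodup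
    exact (Multiset.nodup_add.mp hnodup).2.1
  have hbound : ∀ r ∈ D.roots, -1 < r ∧ r < 1 := by
    intro r hr
    have hr' : r ∈ (Chebyshev.T ℝ ((2 * M + 1 : ℕ) : ℤ)).roots := by
      rw [hrD]; simp [hr]
    rw [hroots] at hr'
    rw [Finset.mem_val] at hr'
    obtain ⟨k, hk, hkr⟩ := Finset.mem_image.mp hr'
    rw [Finset.mem_range] at hk
    have hk' : (k : ℝ) + 1 ≤ 2 * M + 1 := by exact_mod_cast hk
    have hpi := Real.pi_pos
    have a1 : 0 < (2 * (k : ℝ) + 1) * Real.pi / (2 * ((2 * M + 1 : ℕ) : ℝ)) := by positivity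
    have a2 : (2 * (k : ℝ) + 1) * Real.pi / (2 * ((2 * M + 1 : ℕ) : ℝ)) < Real.pi := by
      rw [div_lt_iff₀ (by positivity)]
      push_cast
      nlinarith
    rw [← hkr]
    constructor
    · rw [← Real.cos_pi]
      exact Real.cos_lt_cos_of_nonneg_of_le_pi a1.le le_rfl a2
    · have := Real.cos_lt_cos_of_nonneg_of_le_pi le_rfl a2.le a1
      rwa [Real.cos_zero] at this
  have hynD : y ∉ D.roots := by
    intro h
    apply hnr
    rw [hD]
    have := (mem_roots hD0).mp h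
    rw [IsRoot.def] at this
    simp [this]
  set f : ℝ[X] := (C (2 * (1 / (2 * y))) * X - 1) * D with hf
  have h2y : 2 * (1 / (2 * y)) ≠ 0 := by positivity
  have hlin : (C (2 * (1 / (2 * y))) * X - 1 : ℝ[X]).natDegree = 1 := by
    have := natDegree_linear (a := 2 * (1 / (2 * y))) (b := -1) h2y
    rwa [C_neg, C_1, ← sub_eq_add_neg] at this
  have hlin0 : (C (2 * (1 / (2 * y))) * X - 1 : ℝ[X]) ≠ 0 := by
    intro h
    rw [h] at hlin
    simp at hlin
  have hf0 : f ≠ 0 := mul_ne_zero hlin0 hD0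
  have hfdeg : f.natDegree = 2 * M + 1 := by
    rw [hf, natDegree_mul hlin0 hD0, hlin, hdegD]; ring
  have hpert := perturb f (Chebyshev.U ℝ ((2 * M : ℕ) : ℤ)) (insert y D.roots.toFinset) hf0
    (by
      intro r hr
      rcases Finset.mem_insert.mp hr with rfl | hr
      · rw [hf]
        simp only [eval_mul, eval_sub, eval_C, eval_X, eval_one]
        have : 2 * (1 / (2 * r)) * r - 1 = 0 := by field_simp; ring
        rw [this, zero_mul]
      · rw [Multiset.mem_toFinset, mem_roots hD0, IsRoot.def] at hr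
        rw [hf, eval_mul, hr, mul_zero])
    (by
      rw [Finset.card_insert_of_notMem (by rwa [Multiset.mem_toFinset]),
        Multiset.toFinset_card_of_nodup hnodupD, hcardD, hfdeg])
    (by
      intro r hr
      rcases Finset.mem_insert.mp hr with rfl | hr
      · exact ⟨by linarith, hy1⟩
      · exact hbound r (Multiset.mem_toFinset.mp hr))
    (by
      rw [Chebyshev.degree_U_natCast, degree_eq_natDegree hf0, hfdeg]
      exact_mod_cast Nat.lt_succ_self _)
  have hlt : ∀ᶠ ε in 𝓝 (0 : ℝ), ε < 1 := gt_mem_nhds one_pos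
  filter_upwards [self_mem_nhdsWithin, mem_nhdsWithin_of_mem_nhds hpert,
    mem_nhdsWithin_of_mem_nhds hlt] with ε h0 hp h1
  exact circleRooted_of D M hD _ ε h0 h1 (by positivity) hp

/-- nodes -/
def nu (M j : ℕ) : ℝ := Real.cos ((2 * j + 1) * Real.pi / (2 * (2 * M + 1)))
def mu (M k : ℕ) : ℝ := Real.cos ((4 * k + 1) * Real.pi / (4 * (2 * M + 1)))

theorem nu_pos (M j : ℕ) (hj : j < M) : 0 < nu M j := by
  have hpi := Real.pi_pos
  have hj' : (j : ℝ) + 1 ≤ M := by exact_mod_cast hj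
  apply Real.cos_pos_of_mem_Ioo
  constructor
  · have : 0 < (2 * (j : ℝ) + 1) * Real.pi / (2 * (2 * M + 1)) := by positivity
    linarith
  · rw [div_lt_div_iff₀ (by positivity) (by norm_num)]
    nlinarith

theorem mu_pos (M k : ℕ) (hk : k ≤ M) : 0 < mu M k := by
  have hpi := Real.pi_pos
  have hk' : (k : ℝ) ≤ M := by exact_mod_cast hk
  apply Real.cos_pos_of_mem_Ioo
  constructor
  · have : 0 < (4 * (k : ℝ) + 1) * Real.pi / (4 * (2 * M + 1)) := by positivity
    linarith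
  · rw [div_lt_div_iff₀ (by positivity) (by norm_num)]
    nlinarith

theorem mu_lt_one (M k : ℕ) (hk : k ≤ M) : mu M k < 1 := by
  have hpi := Real.pi_pos
  have hk' : (k : ℝ) ≤ M := by exact_mod_cast hk
  have a1 : 0 < (4 * (k : ℝ) + 1) * Real.pi / (4 * (2 * M + 1)) := by positivity
  have a2 : (4 * (k : ℝ) + 1) * Real.pi / (4 * (2 * M + 1)) ≤ Real.pi := by
    rw [div_le_iff₀ (by positivity)]
    nlinarith
  have := Real.cos_lt_cos_of_nonneg_of_le_pi le_rfl a2 a1
  rwa [Real.cos_zero] at this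

/-- nu j lies strictly between mu k and mu l for k ≤ j < l -/
theorem mu_gt_nu (M k j : ℕ) (hk : k ≤ j) (hj : j < M) : nu M j < mu M k := by
  have hpi := Real.pi_pos
  have hk' : (k : ℝ) ≤ j := by exact_mod_cast hk
  have hj' : (j : ℝ) + 1 ≤ M := by exact_mod_cast hj
  apply Real.cos_lt_cos_of_nonneg_of_le_pi
  · positivity
  · rw [div_le_iff₀ (by positivity)]
    nlinarith
  · rw [div_lt_div_iff₀ (by positivity) (by positivity)]
    have : (4 * (k : ℝ) + 1) * (2 * (2 * M + 1)) < (2 * j + 1) * (4 * (2 * M + 1)) := by nlinarith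
    nlinarith

theorem mu_lt_nu (M l j : ℕ) (hl : j < l) (hlM : l ≤ M) : mu M l < nu M j := by
  have hpi := Real.pi_pos
  have hl' : (j : ℝ) + 1 ≤ l := by exact_mod_cast hl
  have hlM' : (l : ℝ) ≤ M := by exact_mod_cast hlM
  apply Real.cos_lt_cos_of_nonneg_of_le_pi
  · positivity
  · rw [div_le_iff₀ (by positivity)]
    nlinarith
  · rw [div_lt_div_iff₀ (by positivity) (by positivity)]
    have : (2 * (j : ℝ) + 1) * (4 * (2 * M + 1)) < (4 * l + 1) * (2 * (2 * M + 1)) := by nlinarith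
    nlinarith

theorem T_nu (M j : ℕ) : (Chebyshev.T ℝ ((2 * M + 1 : ℕ) : ℤ)).eval (nu M j) = 0 := by
  rw [nu, Chebyshev.T_real_cos, Real.cos_eq_zero_iff]
  refine ⟨j, ?_⟩
  push_cast
  field_simp

theorem T_mu (M k : ℕ) : (Chebyshev.T ℝ ((2 * M + 1 : ℕ) : ℤ)).eval (mu M k) ≠ 0 := by
  rw [mu, Chebyshev.T_real_cos]
  intro h
  rw [Real.cos_eq_zero_iff] at h
  obtain ⟨n, hn⟩ := h
  push_cast at hn
  field_simp at hn
  have hn' : (4 * k + 1 : ℤ) = 2 * (2 * n + 1) := by
    have : ((4 * k + 1 : ℤ) : ℝ) = ((2 * (2 * n + 1) : ℤ) : ℝ) := by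
      push_cast
      nlinarith [Real.pi_pos]
    exact_mod_cast this
  omega

theorem U_nu (M j : ℕ) (hj : j < M) : (Chebyshev.U ℝ ((2 * M : ℕ) : ℤ)).eval (nu M j) ≠ 0 := by
  intro h
  have hj' : (j : ℝ) + 1 ≤ M := by exact_mod_cast hj
  have h2 := Chebyshev.U_real_cos ((2 * j + 1) * Real.pi / (2 * (2 * M + 1))) ((2 * M : ℕ) : ℤ)
  rw [← nu, h, zero_mul] at h2
  have h3 := h2.symm
  rw [Real.sin_eq_zero_iff] at h3
  obtain ⟨n, hn⟩ := h3
  push_cast at hn
  field_simp at hn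
  have hn' : (2 * n : ℤ) = 2 * j + 1 := by
    have : ((2 * n : ℤ) : ℝ) = ((2 * j + 1 : ℤ) : ℝ) := by
      push_cast
      nlinarith [Real.pi_pos]
    exact_mod_cast this
  omega

open Filter Topology in
theorem exists_eps (M : ℕ) : ∃ ε : ℝ, 0 < ε ∧ ε < 1 ∧
    (∀ k ≤ M, CircleRooted (pAlpha (q M ε) (1 / (2 * mu M k)))) ∧
    (∀ j < M, ¬ CircleRooted (pAlpha (q M ε) (1 / (2 * nu M j)))) := by
  obtain ⟨D, hD⟩ := exists_D M
  have h1 : ∀ᶠ ε in 𝓝[>] (0 : ℝ), ∀ k ∈ Finset.range (M + 1),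
      CircleRooted (pAlpha (q M ε) (1 / (2 * mu M k))) := by
    rw [Filter.eventually_all_finset]
    intro k hk
    have hk' : k ≤ M := by rw [Finset.mem_range] at hk; omega
    exact alpha_side D M hD _ (mu_pos M k hk') (mu_lt_one M k hk') (T_mu M k)
  have h2 : ∀ᶠ ε in 𝓝[>] (0 : ℝ), ∀ j ∈ Finset.range M,
      ¬ CircleRooted (pAlpha (q M ε) (1 / (2 * nu M j))) := by
    rw [Filter.eventually_all_finset]
    intro j hj
    rw [Finset.mem_range] at hj
    exact beta_side D M hD _ (nu_pos M j hj) (T_nu M j) (U_nu M j hj)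
  have hlt : ∀ᶠ ε in 𝓝 (0 : ℝ), ε < 1 := gt_mem_nhds one_pos
  have h3 : ∀ᶠ ε in 𝓝[>] (0 : ℝ), 0 < ε ∧ ε < 1 ∧
    (∀ k ≤ M, CircleRooted (pAlpha (q M ε) (1 / (2 * mu M k)))) ∧
    (∀ j < M, ¬ CircleRooted (pAlpha (q M ε) (1 / (2 * nu M j)))) := by
    filter_upwards [self_mem_nhdsWithin, h1, h2, mem_nhdsWithin_of_mem_nhds hlt] with ε a b c d
    exact ⟨a, d, fun k hk => b k (Finset.mem_range.mpr (by omega)),
      fun j hj => c j (Finset.mem_range.mpr hj)⟩
  exact h3.exists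

/-- counting components -/
theorem card_components (S : Set ℝ) (N : ℕ) (a b : ℕ → ℝ) (ha : ∀ k ≤ N, a k ∈ S)
    (hb : ∀ j < N, b j ∉ S) (hab : ∀ k j, k ≤ j → j < N → a k < b j)
    (hba : ∀ l j, j < l → l ≤ N → b j < a l) :
    ((N + 1 : ℕ) : ℕ∞) ≤ ENat.card (ConnectedComponents S) := by
  have hinj : Function.Injective (fun k : Fin (N + 1) =>
      (ConnectedComponents.mk (⟨a k, ha k (by omega)⟩ : S) : ConnectedComponents S)) := by
    have key : ∀ k l : Fin (N + 1), k < l →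
        (ConnectedComponents.mk (⟨a k, ha k (by omega)⟩ : S) : ConnectedComponents S) ≠
        ConnectedComponents.mk (⟨a l, ha l (by omega)⟩ : S) := by
      intro k l hkl h
      rw [ConnectedComponents.coe_eq_coe] at h
      have hpre := isPreconnected_connectedComponent (x := (⟨a l, ha l (by omega)⟩ : S))
      have himg : IsPreconnected (Subtype.val '' connectedComponent (⟨a l, ha l (by omega)⟩ : S)) :=
        hpre.image _ continuous_subtype_val.continuousOn
      have hk1 : a k ∈ Subtype.val '' connectedComponent (⟨a l, ha l (by omega)⟩ : S) := by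
        refine ⟨⟨a k, ha k (by omega)⟩, ?_, rfl⟩
        rw [← h]
        exact mem_connectedComponent
      have hl1 : a l ∈ Subtype.val '' connectedComponent (⟨a l, ha l (by omega)⟩ : S) :=
        ⟨⟨a l, ha l (by omega)⟩, mem_connectedComponent, rfl⟩
      have hkN : (k : ℕ) < N := by omega
      have hmem := himg.Icc_subset hk1 hl1 ⟨(hab k k le_rfl hkN).le, (hba l k hkl (by omega)).le⟩
      obtain ⟨⟨x, hx⟩, _, hxe⟩ := hmem
      simp only at hxe
      rw [hxe] at hx
      exact hb k hkN hx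
    intro k l h
    rcases lt_trichotomy k l with h1 | h1 | h1
    · exact absurd h (key k l h1)
    · exact h1
    · exact absurd h.symm (key l k h1)
  have := ENat.card_le_card_of_injective hinj
  simpa using this

/-- For every `M` there is a trim self-inversive polynomial `p` of darga `4 M + 2`, with real
coefficients, such that `S(p)` has at least `M + 1` connected components.
So the number of components is unbounded. -/
theorem main : ∀ M : ℕ, ∃ p : ℂ[X], p ≠ 0 ∧ SelfInversive p ∧ Trim p ∧ darga p = 4 * M + 2 ∧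
    (∀ j, (p.coeff j).im = 0) ∧ ((M + 1 : ℕ) : ℕ∞) ≤ c p := by
  intro M
  obtain ⟨ε, h0, h1, hα, hβ⟩ := exists_eps M
  refine ⟨q M ε, q_ne_zero M ε h0 h1, q_selfInversive M ε h0 h1, q_trim M ε h0 h1,
    q_darga M ε h0 h1, ?_, ?_⟩
  · intro j
    rw [q_coeff]
    split_ifs
    · exact Complex.ofReal_im _
    · simp
  · apply card_components (S (q M ε)) M (fun k => 1 / (2 * mu M k)) (fun j => 1 / (2 * nu M j))
    · intro k hk
      have := mu_pos M k hk
      exact ⟨by positivity, hα k hk⟩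
    · intro j hj hmem
      exact hβ j hj hmem.2
    · intro k j hkj hj
      have h1 := nu_pos M j hj
      have h2 := mu_gt_nu M k j hkj hj
      exact one_div_lt_one_div_of_lt (by positivity) (by linarith)
    · intro l j hjl hl
      have h1 := mu_pos M l hl
      have h2 := mu_lt_nu M l j hjl hl
      exact one_div_lt_one_div_of_lt (by positivity) (by linarith)

end

end Pool.Agent.Lib.MP_9de7c4_an
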